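import Mathlib
import Pool.Agent.Run7.h896.Main

set_option autoImplicit false

/-! # The six-linear inequality for functions living on two antipodal quarter arcs

`L` is the Gaussian-mollified six-linear form of the circle, exactly as in the frozen statement of
the problem. -/

/-- For every bounded measurable `π`-periodic function `f` of the angle which vanishes outside the
closed arcs of half-width `π / 4` about `c` and `c + π`, the six-linear form satisfies
`Λ(f,f,f,f,f,f) ≤ Λ(f²,f²,f²,1,1,1)` in the limit of the exact delta. -/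
theorem Pool.Agent.Results.MP_cbe5a6_an.QuarterArcs.result :
    ∀ L : ℝ → (Fin 6 → ℝ → ℝ) → ℝ,
      (∀ (ε : ℝ) (g : Fin 6 → ℝ → ℝ),
        L ε g = (1 / 2 : ℝ) ^ 6 *
          ∫ θ in Set.pi Set.univ (fun _ : Fin 6 => Set.Icc (0 : ℝ) (2 * Real.pi)),
            ((Real.cos (θ 0) + Real.cos (θ 1) + Real.cos (θ 2)) ^ 2
                + (Real.sin (θ 0) + Real.sin (θ 1) + Real.sin (θ 2)) ^ 2 - 1)
            * ((1 / (Real.pi * ε ^ 2)) *
                Real.exp (-((∑ k : Fin 6, Real.cos (θ k)) ^ 2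
                    + (∑ k : Fin 6, Real.sin (θ k)) ^ 2) / ε ^ 2))
            * ∏ j : Fin 6, g j (θ j)) →
      ∀ f : ℝ → ℝ, Measurable f → (∃ M : ℝ, ∀ θ, |f θ| ≤ M) → Function.Periodic f Real.pi →
        (∃ c : ℝ, ∀ θ : ℝ, f θ ≠ 0 → ∃ k : ℤ, |θ - c - k * Real.pi| ≤ Real.pi / 4) →
        ∀ δ : ℝ, 0 < δ → ∃ ε₀ : ℝ, 0 < ε₀ ∧ ∀ ε : ℝ, 0 < ε → ε < ε₀ →
          L ε (fun _ => f) ≤
            L ε (fun j t => if (j : ℕ) < 3 then f t ^ 2 else 1) + δ := by
  intro L hL f hf hb hper hs δ hδ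
  obtain ⟨M, hM⟩ := hb
  obtain ⟨c, hc⟩ := hs
  exact Run7.h896.main_thm L hL f hf M hM hper c hc δ hδ
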